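import Pool.Agent.PFD.StmtsD3

namespace Pool.Agent.PFD.D3.H41

noncomputable section

theorem grm : GrmStmt := by
  intro R F A K _ _ c _ _ _ _ b t p hp hG
  obtain ⟨G, hGd⟩ : ∃ G : Matrix K K R, ∀ i j, G i j = t (b i * b j) :=
    ⟨fun i j => t (b i * b j), fun _ _ => rfl⟩
  obtain ⟨M, hMd⟩ : ∃ M : Matrix K K F, M = c.κ.mapMatrix G := ⟨_, rfl⟩
  have hM : ∀ i j, M i j = if j = p i then 1 else 0 := by
    intro i j
    rw [hMd]
    show c.κ (G i j) = _
    rw [hGd]
    exact hG i j
  have h1 : M * M.transpose = 1 := by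
    ext i j
    rw [Matrix.mul_apply, Matrix.one_apply]
    have h : ∀ k, M i k * M.transpose k j = if k = p i then (if p i = p j then 1 else 0) else 0 := by
      intro k
      rw [Matrix.transpose_apply, hM, hM]
      split_ifs with h1 h2 h3 h4 <;> simp_all
    rw [Finset.sum_congr rfl fun k _ => h k, Finset.sum_ite_eq' Finset.univ (p i)]
    simp only [Finset.mem_univ, if_true, hp.1.eq_iff]
  have h2 : c.κ G.det ≠ 0 := by
    rw [RingHom.map_det, ← hMd]
    intro h0
    have h := congrArg Matrix.det h1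
    rw [Matrix.det_mul, h0, zero_mul, Matrix.det_one] at h
    exact zero_ne_one h
  have h3 : IsUnit G.det := c.loc _ h2
  have h4 : G⁻¹ * G = 1 := Matrix.nonsing_inv_mul _ h3
  have h5 : ∀ i j, t ((∑ k, G⁻¹ i k • b k) * b j) = if i = j then 1 else 0 := by
    intro i j
    rw [Finset.sum_mul, map_sum]
    have h := congrFun (congrFun h4 i) j
    rw [Matrix.mul_apply, Matrix.one_apply] at h
    rw [← h]
    refine Finset.sum_congr rfl fun k _ => ?_
    rw [smul_mul_assoc, map_smul, hGd, smul_eq_mul]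
  refine ⟨fun i => ∑ k, G⁻¹ i k • b k, ?_, h5⟩
  intro a
  have h6 : (∑ j, (t.comp (LinearMap.mulLeft R (∑ k, G⁻¹ j k • b k))).smulRight (b j)) =
      LinearMap.id := by
    apply b.ext
    intro i
    rw [LinearMap.sum_apply]
    simp only [LinearMap.smulRight_apply, LinearMap.comp_apply, LinearMap.mulLeft_apply, h5,
      LinearMap.id_apply]
    simp
  have h7 := congrArg (fun f => f a) h6
  simpa only [LinearMap.sum_apply, LinearMap.smulRight_apply, LinearMap.comp_apply,
    LinearMap.mulLeft_apply, LinearMap.id_apply] using h7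

end

end Pool.Agent.PFD.D3.H41
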