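import Pool.Agent.PFD.StmtsD5b

open scoped BigOperators

noncomputable section

namespace Pool.Agent.PFD.H41

open Pool.Agent.Helper51_AWC Pool.Agent.Helper79_WRA Pool.Agent.PP Pool.Agent.PP.KF
open Pool.Agent.PP.K9 Pool.Agent.PP.K9.H97 Pool.Agent.PP.H75 Pool.Agent.PP.T3 Pool.Agent.PP.T2
open Pool.Agent.PP.TB (Zd Star iz cz)

section conj

variable {G : Type} [Group G]

theorem mem_conjS {g : G} {P : Subgroup G} {x : G} : x ∈ conjS g P ↔ g⁻¹ * x * g ∈ P := by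
  rw [conjS, Subgroup.mem_map]
  constructor
  · rintro ⟨y, hy, rfl⟩
    have : g⁻¹ * ((MulAut.conj g).toMonoidHom y) * g = y := by
      simp [mul_assoc]
    rw [this]
    exact hy
  · intro h
    exact ⟨_, h, by simp [mul_assoc]⟩

theorem conjS_mem_iff {g : G} {V : Subgroup G} (x : G) : g * x * g⁻¹ ∈ conjS g V ↔ x ∈ V := by
  rw [mem_conjS]
  have e : g⁻¹ * (g * x * g⁻¹) * g = x := by group
  rw [e]

theorem mem_norm_conjS {g : G} {V : Subgroup G} (x : G) :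
    x ∈ Subgroup.normalizer (conjS g V : Set G) ↔
      g⁻¹ * x * g ∈ Subgroup.normalizer (V : Set G) := by
  rw [Subgroup.mem_normalizer_iff, Subgroup.mem_normalizer_iff]
  constructor
  · intro h v
    have h1 := h (g * v * g⁻¹)
    rw [conjS_mem_iff, mem_conjS] at h1
    rw [h1]
    have e : g⁻¹ * (x * (g * v * g⁻¹) * x⁻¹) * g = g⁻¹ * x * g * v * (g⁻¹ * x * g)⁻¹ := by group
    rw [e]
  · intro h v
    have h1 := h (g⁻¹ * v * g)
    rw [mem_conjS, mem_conjS, h1]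
    have e : g⁻¹ * (x * v * x⁻¹) * g = g⁻¹ * x * g * (g⁻¹ * v * g) * (g⁻¹ * x * g)⁻¹ := by group
    rw [e]

theorem mem_stabF_cj {F : Type} {g : G} {γ : G → F} (x : G) :
    x ∈ stabF (cj g γ) ↔ g⁻¹ * x * g ∈ stabF γ := by
  constructor
  · intro h y
    have h1 := h (g * y * g⁻¹)
    change γ (g⁻¹ * (x * (g * y * g⁻¹) * x⁻¹) * g) = γ (g⁻¹ * (g * y * g⁻¹) * g) at h1
    have e1 : g⁻¹ * (x * (g * y * g⁻¹) * x⁻¹) * g = g⁻¹ * x * g * y * (g⁻¹ * x * g)⁻¹ := by group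
    have e2 : g⁻¹ * (g * y * g⁻¹) * g = y := by group
    rw [e1, e2] at h1
    exact h1
  · intro h y
    have h1 : γ (g⁻¹ * x * g * (g⁻¹ * y * g) * (g⁻¹ * x * g)⁻¹) = γ (g⁻¹ * y * g) :=
      h (g⁻¹ * y * g)
    change γ (g⁻¹ * (x * y * x⁻¹) * g) = γ (g⁻¹ * y * g)
    rw [← h1]
    congr 1
    group

theorem tg_conjS {F : Type} (g : G) (V : Subgroup G) (γ : G → F) :
    Tg (conjS g V) (cj g γ) = conjS g (Tg V γ) := by
  ext x
  rw [mem_conjS, Tg, Tg, Subgroup.mem_inf, Subgroup.mem_inf, mem_norm_conjS, mem_stabF_cj]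

end conj

theorem spj : SpjStmt := by
  intro F G _ V γ U W h g
  have hinj : Function.Injective (MulAut.conj g).toMonoidHom := (MulAut.conj g).injective
  refine ⟨Subgroup.map_mono h.lu, Subgroup.map_mono h.lw, ?_, ?_, ?_, ?_, ?_, ?_⟩
  · unfold conjS
    rw [← Subgroup.map_inf _ _ _ hinj, h.dj, Subgroup.map_bot]
  · unfold conjS
    rw [← Subgroup.map_sup, h.jn]
  · intro h0
    apply h.nt
    unfold conjS at h0
    rwa [Subgroup.map_eq_bot_iff_of_injective _ hinj] at h0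
  · intro t ht u hu
    rw [tg_conjS, mem_conjS] at ht
    rw [mem_conjS] at hu ⊢
    have h1 := h.su _ ht _ hu
    have e : g⁻¹ * (t * u * t⁻¹) * g = g⁻¹ * t * g * (g⁻¹ * u * g) * (g⁻¹ * t * g)⁻¹ := by group
    rw [e]
    exact h1
  · intro t ht u hu
    rw [tg_conjS, mem_conjS] at ht
    rw [mem_conjS] at hu ⊢
    have h1 := h.sw _ ht _ hu
    have e : g⁻¹ * (t * u * t⁻¹) * g = g⁻¹ * t * g * (g⁻¹ * u * g) * (g⁻¹ * t * g)⁻¹ := by group
    rw [e]
    exact h1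
  · intro t ht u hu hu1 hc
    rw [tg_conjS, mem_conjS] at ht
    rw [mem_conjS] at hu
    have h1 : g⁻¹ * u * g ≠ 1 := by
      intro h0
      apply hu1
      have e : u = g * (g⁻¹ * u * g) * g⁻¹ := by group
      rw [e, h0]
      group
    have h2 : g⁻¹ * t * g * (g⁻¹ * u * g) = g⁻¹ * u * g * (g⁻¹ * t * g) := by
      have e1 : g⁻¹ * t * g * (g⁻¹ * u * g) = g⁻¹ * (t * u) * g := by group
      have e2 : g⁻¹ * u * g * (g⁻¹ * t * g) = g⁻¹ * (u * t) * g := by group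
      rw [e1, e2, hc]
    have h3 := h.fr _ ht _ hu h1 h2
    rw [Subgroup.mem_centralizer_iff] at h3 ⊢
    intro v hv
    have h4 := h3 (g⁻¹ * v * g) (mem_conjS.1 hv)
    have h5 : g * (g⁻¹ * v * g * (g⁻¹ * t * g)) * g⁻¹ = g * (g⁻¹ * t * g * (g⁻¹ * v * g)) * g⁻¹ := by
      rw [h4]
    have e1 : g * (g⁻¹ * v * g * (g⁻¹ * t * g)) * g⁻¹ = v * t := by group
    have e2 : g * (g⁻¹ * t * g * (g⁻¹ * v * g)) * g⁻¹ = t * v := by group
    rw [e1, e2] at h5
    exact h5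

end Pool.Agent.PFD.H41
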