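import Pool.Agent.PFD.StmtsD4

open scoped BigOperators TensorProduct

namespace Pool.Agent.PFD.D4.H41

open Pool.Agent.PFC.B1 (BiM FS Sep Split)
open Pool.Agent.PFD.D2
open Pool.Agent.PFD.D2b

noncomputable section

theorem bsp : BspStmt := by
  intro R K Γ A I _ _ _ _ _ _ _ _ c c' j pr a m hb hb' hj hl hr ha hm
  have jt : ∀ (k : K) (γ : Γ), Algebra.TensorProduct.map (AlgHom.id K K) j (k ⊗ₜ[R] γ) =
      k ⊗ₜ[R] j γ := fun k γ => rfl
  have pt : ∀ (k : K) (x : A), pr.baseChange K (k ⊗ₜ[R] x) = k ⊗ₜ[R] pr x := fun k x => rfl
  have at' : ∀ (k : K) (x : A), a.baseChange K (k ⊗ₜ[R] x) = k ⊗ₜ[R] a x := fun k x => rfl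
  refine ⟨{ j := Algebra.TensorProduct.map (AlgHom.id K K) j
            pr := pr.baseChange K
            pr_j := ?_
            pr_l := ?_
            pr_r := ?_
            a := (algebraMap R K m)⁻¹ • a.baseChange K
            a_id := ?_ }, jt, pt⟩
  · intro γ
    induction γ using TensorProduct.induction_on with
    | zero => simp
    | tmul k γ => rw [jt, pt, hj]
    | add x y hx hy => rw [map_add, map_add, hx, hy]
  · intro γ x
    induction γ using TensorProduct.induction_on with
    | zero => simp
    | tmul k γ =>
      induction x using TensorProduct.induction_on with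
      | zero => simp
      | tmul l x =>
        rw [jt, pt, Algebra.TensorProduct.tmul_mul_tmul, Algebra.TensorProduct.tmul_mul_tmul, pt, hl]
      | add x y hx hy => rw [mul_add, map_add, map_add, mul_add, hx, hy]
    | add x y hx hy => rw [map_add, add_mul, map_add, add_mul, hx, hy]
  · intro x γ
    induction γ using TensorProduct.induction_on with
    | zero => simp
    | tmul k γ =>
      induction x using TensorProduct.induction_on with
      | zero => simp
      | tmul l x =>
        rw [jt, pt, Algebra.TensorProduct.tmul_mul_tmul, Algebra.TensorProduct.tmul_mul_tmul, pt, hr]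
      | add x y hx hy => rw [add_mul, map_add, map_add, add_mul, hx, hy]
    | add x y hx hy => rw [map_add, mul_add, map_add, mul_add, hx, hy]
  · intro x
    induction x using TensorProduct.induction_on with
    | zero => simp
    | tmul k y =>
      have h1 : ∀ i l, Algebra.TensorProduct.map (AlgHom.id K K) j (c'.b i) *
          ((algebraMap R K m)⁻¹ • a.baseChange K)
            (Algebra.TensorProduct.map (AlgHom.id K K) j (c'.b' i) * (k ⊗ₜ[R] y) *
              Algebra.TensorProduct.map (AlgHom.id K K) j (c'.b l)) *
          Algebra.TensorProduct.map (AlgHom.id K K) j (c'.b' l) =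
          (algebraMap R K m)⁻¹ • (k ⊗ₜ[R]
            (j (c.b i) * a (j (c.b' i) * y * j (c.b l)) * j (c.b' l))) := by
        intro i l
        rw [hb, hb', hb, hb', jt, jt, jt, jt, Algebra.TensorProduct.tmul_mul_tmul,
          Algebra.TensorProduct.tmul_mul_tmul, LinearMap.smul_apply, at', mul_smul_comm,
          smul_mul_assoc, Algebra.TensorProduct.tmul_mul_tmul,
          Algebra.TensorProduct.tmul_mul_tmul]
        simp only [one_mul, mul_one]
      rw [Finset.sum_congr rfl fun i _ => Finset.sum_congr rfl fun l _ => h1 i l]
      simp only [← Finset.smul_sum]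
      simp only [← TensorProduct.tmul_sum]
      rw [ha, TensorProduct.tmul_smul, ← algebraMap_smul K m, smul_smul, inv_mul_cancel₀ hm,
        one_smul, TensorProduct.tmul_sub, pt, jt]
    | add x y hx hy =>
      simp only [mul_add, add_mul, map_add, Finset.sum_add_distrib]
      rw [hx, hy]
      abel

end

end Pool.Agent.PFD.D4.H41
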