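import Pool.Agent.PFD.StmtsD1

namespace Pool.Agent.PFD.H41

open Pool.Agent.PFC.B1

noncomputable section

theorem rot_sum {R I : Type} [AddCommMonoid R] [Fintype I] (f : I → I → I → I → R) :
    ∑ i1, ∑ i2, ∑ i3, ∑ i4, f i1 i2 i3 i4 = ∑ i1, ∑ i2, ∑ i3, ∑ i4, f i4 i1 i2 i3 := by
  rw [Finset.sum_comm]
  refine Finset.sum_congr rfl fun i1 _ => ?_
  rw [Finset.sum_comm]
  refine Finset.sum_congr rfl fun i2 _ => ?_
  exact Finset.sum_comm

theorem rot : RotStmt := by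
  intro R B A I J N _ _ _ _ _ _ _ _ D X X' Y Y' f1 f2 f3 f4
  have hT : ∀ a b : A, D.T (a * b) = D.T (b * a) := D.ds
  unfold Net.H4
  rw [Finset.sum_comm]
  refine Finset.sum_congr rfl fun s _ => Finset.sum_congr rfl fun r _ => ?_
  rw [rot_sum]
  refine Finset.sum_congr rfl fun i1 _ => Finset.sum_congr rfl fun i2 _ =>
    Finset.sum_congr rfl fun i3 _ => Finset.sum_congr rfl fun i4 _ => ?_
  have h1 : D.w4 f1 f2 f3 f4 (D.c.b' i4) (D.c.b' i1) (D.c.b' i2) (D.c.b' i3) =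
      D.w4 f2 f3 f4 f1 (D.c.b' i1) (D.c.b' i2) (D.c.b' i3) (D.c.b' i4) := by
    unfold Net.w4
    rw [← D.cs]
    simp only [mul_assoc]
    rw [D.cs]
    simp only [mul_assoc]
    try rw [D.cs]
    try simp only [mul_assoc]
  have h2 : D.T (X r * D.u i4 * Y s * D.u i1 * X' r * D.u i2 * Y' s * D.u i3) =
      D.T (Y s * D.u i1 * X' r * D.u i2 * Y' s * D.u i3 * X r * D.u i4) := by
    have h := hT (X r * D.u i4) (Y s * D.u i1 * X' r * D.u i2 * Y' s * D.u i3)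
    simpa only [mul_assoc] using h
  rw [h1, h2]

end

end Pool.Agent.PFD.H41
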