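import Pool.Agent.PFD.StmtsD1

namespace Pool.Agent.PFD.H41

open Pool.Agent.PFC.B1

noncomputable section

theorem trf : TrfStmt := by
  intro K A J _ _ _ _ _ d h
  have h1 : h = ∑ p, (d.lam.comp (LinearMap.mulLeft K (d.b' p))).smulRight (h (d.b p)) := by
    apply LinearMap.ext
    intro x
    rw [LinearMap.sum_apply]
    simp only [LinearMap.smulRight_apply, LinearMap.comp_apply, LinearMap.mulLeft_apply]
    conv_lhs => rw [← d.h1 x]
    rw [map_sum]
    exact Finset.sum_congr rfl fun p _ => by rw [map_smul]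
  conv_lhs => rw [h1]
  rw [map_sum]
  refine Finset.sum_congr rfl fun p _ => ?_
  rw [LinearMap.trace_smulRight]
  rfl

end

end Pool.Agent.PFD.H41
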