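import Pool.Agent.PFD.StmtsD1

namespace Pool.Agent.PFD.H41

open Pool.Agent.PFC.B1

noncomputable section

theorem w13 (hLnk : LnkStmt) (hCon : ConStmt) (hGau : GauStmt) : W13Stmt := by
  intro R B A I J N _ _ _ _ _ _ _ _ D v De hD
  have hDop : D.op.Der v De := ⟨hD.der, hD.cen, hD.div⟩
  obtain ⟨ya, ys, yl, yr, y1, -, -, -, -, -⟩ := hCon R B A I J N D v De hD
  obtain ⟨xa, xs, xl, xr, x1, -, -, -, -, -⟩ := hCon R B A I J N D.op v De hDop
  let de : A →ₗ[R] A :=
    { toFun := fun a => D.op.Ry v a - D.Ry v a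
      map_add' := by
        intro a b
        rw [xa, ya]
        abel
      map_smul' := by
        intro r a
        rw [xs, ys, RingHom.id_apply, smul_sub] }
  have hde : ∀ a, de a = D.op.Ry v a - D.Ry v a := fun _ => rfl
  have hg := hGau R B A I J N D de ?_ ?_ ?_
  · have hN : ∀ X X' : N → A, D.N4 X X' de = D.N4 X X' (D.op.Ry v) - D.N4 X X' (D.Ry v) := by
      intro X X'
      unfold Net.N4
      rw [← Finset.sum_sub_distrib]
      refine Finset.sum_congr rfl fun r _ => ?_
      rw [← Finset.sum_sub_distrib]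
      refine Finset.sum_congr rfl fun i _ => ?_
      rw [← Finset.sum_sub_distrib]
      refine Finset.sum_congr rfl fun p _ => ?_
      rw [hde, mul_sub, sub_mul]
      unfold Net.T
      rw [map_sub]
    rw [hN, hN] at hg
    have h1 := hLnk R B A I J N D v D.x D.y
    have h2 : D.H4 D.y D.x D.y D.x v (I1 R B) (I1 R B) (I1 R B) = D.N4 D.y D.x (D.op.Ry v) :=
      hLnk R B A I J N D.op v D.y D.x
    have h3 : D.H4 D.x D.y D.y D.x v (I1 R B) (I1 R B) (I1 R B) = D.N4 D.x D.y (D.op.Ry v) :=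
      hLnk R B A I J N D.op v D.x D.y
    have h4 := hLnk R B A I J N D v D.y D.x
    rw [h1, h2, h3, h4]
    linear_combination -hg
  · intro b a
    have h5 : D.op.Ry v (D.j b * a) = D.j b * D.op.Ry v a := xl b a
    rw [hde, hde, h5, yl, mul_sub]
  · intro a b
    have h5 : D.op.Ry v (a * D.j b) =
      D.op.Ry v a * D.j b + (a - D.j (D.pr a)) * D.j (v b) := xr a b
    have h6 : (D.op.Ry v a - D.Ry v a) * D.j b = D.op.Ry v a * D.j b - D.Ry v a * D.j b :=
      sub_mul _ _ _
    rw [hde, hde, h5, yr, h6]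
    abel
  · rw [hde, x1, y1, sub_zero]

end

end Pool.Agent.PFD.H41
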