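import Pool.Agent.PFD.StmtsD5b

noncomputable section

namespace Pool.Agent.PFD.H41

open Pool.Agent.PP

theorem fin (hFnx : TX.FnxStmt) (hFnd : FndStmt) : FinStmt := by
  intro ℓ _ M _ hM G _ _ hc χ hχ D hD hne hab th hth a ha hd r hr hor
  rcases hor with h | h | h | h | h | ⟨U, h1, h2, h3, h4⟩
  · exact hFnx ℓ M hM G hc χ hχ D hD hne hab th hth a ha hd r hr (Or.inl h)
  · exact hFnx ℓ M hM G hc χ hχ D hD hne hab th hth a ha hd r hr (Or.inr (Or.inl h))
  · exact hFnx ℓ M hM G hc χ hχ D hD hne hab th hth a ha hd r hr (Or.inr (Or.inr (Or.inl h)))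
  · exact hFnx ℓ M hM G hc χ hχ D hD hne hab th hth a ha hd r hr
      (Or.inr (Or.inr (Or.inr (Or.inl h))))
  · exact hFnx ℓ M hM G hc χ hχ D hD hne hab th hth a ha hd r hr
      (Or.inr (Or.inr (Or.inr (Or.inr (Or.inl h)))))
  · exact hFnd ℓ M hM G hc χ hχ D hD hne hab th hth U h1 h2 h3 h4

end Pool.Agent.PFD.H41
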